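import Mathlib
import Pool.Agent.R175.TriSq.Tiling

/-!
# A patch of a species 3 tiling that extends to no convex patch

The negated form of the question holds.  Take a large block `A` of the snub square tiling (all vertices of type
`3^2.4.3.4`), so `A` contains a disk of radius `10`, with centre `q`, say.

Let `B` be a patch with convex union `K` that contains `A`.  Let `f` be a point of the boundary of `K` closest to
`q`, at distance `d ≥ 10`, and let `L` be the supporting line at `f`.  A tile of `B` at `f` has a side on `L`.
Inside the disk of radius `d` around `q` the neighbours of this tile along `L` have the same type (two squares or
three triangles meet at a vertex on a straight part of the boundary), which gives a row of `n` tiles of the same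
type with `n` about `2 (2 - √3) d`.  By the conditions on the vertices a row of `n` squares carries a row of `n`
triangles, and a row of `n` triangles carries a row of `n - 1` squares.  Going up in this way one meets two
adjacent squares at distance less than `10` from `q`.  They are tiles of `A`, but no two squares of the snub
square tiling share a side.
-/

set_option autoImplicit false

namespace Pool.Agent.Results.MP_331808_co.SnubBlock

open Set Pool.Agent.R175.TriSq

/-- The negated form: some patch lies in an edge-to-edge tiling of the plane by regular triangles and squares with
all vertices of species 3, but in no convex patch. -/
theorem result : ∃ A F : Set (Set ℂ), IsPatch A ∧ IsTiling F ∧ A ⊆ F ∧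
    ¬ ∃ B : Set (Set ℂ), IsPatch B ∧ A ⊆ B ∧ Convex ℝ (⋃₀ B) :=
  ⟨block, snub, block_patch, snub_tiling, block_sub, fun ⟨_, hB, hAB, hconv⟩ => block_not_convex hB hAB hconv⟩

end Pool.Agent.Results.MP_331808_co.SnubBlock
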